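import Pool.Agent.H80.S6C.Asm

/-!
# The choice of the plank for the normals (ADM)

`adm_thm`: LEMMA C gives two rows `g' < g` with different critical windows; a window between them
is a window of planks with thickness less than `g < 1`, on which the directions turn. A subset of
positive measure of the rows has its critical windows below this window.
-/

set_option autoImplicit false

namespace Pool.S6C

open Finset Real Set
open Pool.Agent.H49.Ent Pool.Agent.H32.Dense Pool.STK Pool.KA Pool.KSAT Pool.K2S Pool.PB Pool.KS6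

/-- The critical window is at most the row. -/
theorem PR.le {c : ℝ} {r : ℝ → ℝ} {D : Set ℝ} {σ : ℝ → Row} {Q ws : ℝ}
    (h : PR c r D σ Q ws) : ws ≤ Q := by
  by_contra hcon
  push Not at hcon
  obtain ⟨e, he, he'⟩ := h.isWs.2 Q hcon
  obtain ⟨v, v0, vQ, -, -, hv⟩ := h.pk e he
  linarith [he' v v0.le vQ.le]

/-- A window below a critical window. -/
theorem PR.below {S : PCl 3} {a R h₁ : ℝ} {i₀ : Fin 3} {c s₂ : ℝ} {r : ℝ → ℝ} {D : Set ℝ}
    {σ : ℝ → Row} (hC : Cs S a R h₁ i₀ c s₂ r D σ) {g ws : ℝ} (h : PR c r D σ g ws) {v₁ : ℚ}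
    (h0 : 0 ≤ v₁) (hv : (v₁ : ℝ) < ws) :
    (σ 1).th v₁ < g ∧ (σ 1).rot v₁ < (σ 1).pi ∧ v₁ < 1 := by
  have r1 := hC.row 1 one_pos le_rfl hC.D1
  obtain ⟨e, he, he'⟩ := h.isWs1.2 v₁ hv
  obtain ⟨e₂, he₂, he₂'⟩ := h.isWs.2 v₁ hv
  obtain ⟨v, v0, vg, -, g2, g3⟩ := h.pk e₂ he₂
  have h1 := he' v₁ h0 le_rfl
  have h2 : v₁ < v := by
    by_contra hcon
    push Not at hcon
    have : (v : ℝ) ≤ v₁ := by exact_mod_cast hcon
    linarith [he₂' v v0.le this]
  have h3 : v ≤ 1 := by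
    have : (v : ℝ) ≤ 1 := vg.le.trans h.lt1.le
    exact_mod_cast this
  have h4 := rot_window hC.ne r1 h0 h2.le h3
  exact ⟨by linarith, by linarith, lt_of_lt_of_le h2 h3⟩

/-- The velocity precision of a critical window below `v₁`. -/
theorem PR.vel {S : PCl 3} {a R h₁ : ℝ} {i₀ : Fin 3} {c s₂ : ℝ} {r : ℝ → ℝ} {D : Set ℝ}
    {σ : ℝ → Row} (hC : Cs S a R h₁ i₀ c s₂ r D σ) {Q ws : ℝ} (h : PR c r D σ Q ws) {v₁ : ℚ}
    (h1 : v₁ ≤ 1) (hv : ws < (v₁ : ℝ)) (ht : (σ 1).th v₁ < 1) :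
    Q - ws ≤ (σ 1).th v₁ - v₁ := by
  refine le_of_forall_pos_le_add fun e he => ?_
  obtain ⟨v, v0, -, vw, hv'⟩ := h.isWs1.1 (e / 2) (by linarith) (min (v₁ : ℝ) (ws + e / 2))
    (lt_min hv (by linarith))
  have a1 : (v : ℝ) < v₁ := vw.trans_le (min_le_left _ _)
  have a2 : (v : ℝ) < ws + e / 2 := vw.trans_le (min_le_right _ _)
  have a3 : v ≤ v₁ := le_of_lt (by exact_mod_cast a1)
  have a4 : (v₁ : ℝ) ≤ 1 := by exact_mod_cast h1
  have a5 := (ths_thm hC one_pos le_rfl hC.D1 v0 a3 a4).1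
  rcases min_le_iff.1 a5 with a6 | a6
  · linarith
  · linarith

/-- **(ADM)** The choice of the plank for the normals. -/
theorem adm_thm (hLEMC : LEMCStmt) : ADMStmt := by
  classical
  intro S a R h₁ i₀ c s₂ r D σ hC K W hvol hPR
  -- a window `v₁` below a critical window, and above the ones of a set of positive measure
  obtain ⟨v₁, g, hg, hv₁, hA⟩ : ∃ (v₁ : ℚ) (g : ℝ), g ∈ K ∧ (v₁ : ℝ) < W g ∧
      MeasureTheory.volume {Q | Q ∈ K ∧ W Q < v₁} ≠ 0 := by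
    by_contra hcon
    push Not at hcon
    have hne : K.Nonempty := by
      by_contra h
      rw [Set.not_nonempty_iff_eq_empty] at h
      exact hvol (by rw [h]; exact MeasureTheory.measure_empty)
    have hbd : BddAbove (W '' K) := by
      refine ⟨1, ?_⟩
      rintro _ ⟨Q, hQ, rfl⟩
      exact (hPR Q hQ).le.trans (hPR Q hQ).lt1.le
    obtain ⟨s, hs⟩ : ∃ s, s = sSup (W '' K) := ⟨_, rfl⟩
    have hle : ∀ Q ∈ K, W Q ≤ s := fun Q hQ => by
      rw [hs]
      exact le_csSup hbd ⟨Q, hQ, rfl⟩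
    have hlow : MeasureTheory.volume {Q | Q ∈ K ∧ W Q < s} = 0 := by
      refine MeasureTheory.measure_mono_null (t := ⋃ v : ℚ, ⋃ _ : (v : ℝ) < s,
        {Q | Q ∈ K ∧ W Q < v}) ?_ ?_
      · rintro Q ⟨hQ, hQs⟩
        obtain ⟨v, b1, b2⟩ := exists_rat_btwn hQs
        exact Set.mem_iUnion.2 ⟨v, Set.mem_iUnion.2 ⟨b2, hQ, b1⟩⟩
      · refine MeasureTheory.measure_iUnion_null fun v => MeasureTheory.measure_iUnion_null
          fun hv => ?_
        rw [hs] at hv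
        obtain ⟨_, ⟨g, hg, rfl⟩, hlt⟩ := exists_lt_of_lt_csSup (hne.image W) hv
        exact hcon v g hg hlt
    obtain ⟨N, hN, hN'⟩ := hLEMC S a R h₁ i₀ c s₂ r D σ hC K W hPR
    have hT : ({Q | Q ∈ K ∧ W Q = s} \ N).Countable := by
      refine (countable_setOfPred_isolated_left_within (s := {Q | Q ∈ K ∧ W Q = s} \ N)).mono
        fun g hg => ?_
      obtain ⟨C, y₀, hC0, hy₀, hCg⟩ := hN' g hg.1.1 hg.2
      refine ⟨hg, ?_⟩
      refine Filter.empty_mem_iff_bot.1 ?_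
      rw [mem_nhdsWithin]
      refine ⟨Ioi (g - y₀), isOpen_Ioi, by
        show g - y₀ < g
        linarith, ?_⟩
      rintro g' ⟨k1, k2, k3⟩
      have k4 := hCg g' k2.1.1 k1 k3
      rw [hg.1.2, k2.1.2, sub_self] at k4
      have k5 : g' < g := k3
      have k6 : 0 < (g - g') / C := div_pos (by linarith) hC0
      linarith
    refine hvol (MeasureTheory.measure_mono_null (t := {Q | Q ∈ K ∧ W Q < s} ∪
      (({Q | Q ∈ K ∧ W Q = s} \ N) ∪ N)) ?_ ?_)
    · intro Q hQ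
      rcases lt_or_eq_of_le (hle Q hQ) with h | h
      · exact Or.inl ⟨hQ, h⟩
      · by_cases hQN : Q ∈ N
        · exact Or.inr (Or.inr hQN)
        · exact Or.inr (Or.inl ⟨⟨hQ, h⟩, hQN⟩)
    · exact MeasureTheory.measure_union_null hlow
        (MeasureTheory.measure_union_null (hT.measure_zero _) hN)
  obtain ⟨Q₀, hQ₀, hQ₀v⟩ : ∃ Q₀, Q₀ ∈ K ∧ W Q₀ < v₁ := by
    by_contra hcon
    push Not at hcon
    refine hA ?_
    have : {Q | Q ∈ K ∧ W Q < v₁} = ∅ := by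
      ext Q
      simp only [Set.mem_ofPred_eq, Set.mem_empty_iff_false, iff_false, not_and, not_lt]
      exact hcon Q
    rw [this]
    exact MeasureTheory.measure_empty
  have v10' : (0 : ℝ) < v₁ := (hPR Q₀ hQ₀).ws0.trans hQ₀v
  have v10 : 0 < v₁ := by exact_mod_cast v10'
  obtain ⟨k1, k2, k3⟩ := (hPR g hg).below hC v10.le hv₁
  have k4 : (σ 1).th v₁ < 1 := k1.trans (hPR g hg).lt1
  have r1 := hC.row 1 one_pos le_rfl hC.D1
  have k5 := th_ge hC.ne hC.st le_rfl r1 v₁ v10.le (by exact_mod_cast k3.le)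
  obtain ⟨e₁, he₁⟩ : ∃ e₁, e₁ = ((σ 1).pi - (σ 1).rot v₁) / 16 := ⟨_, rfl⟩
  have he0 : 0 < e₁ := by rw [he₁]; linarith
  obtain ⟨t, t1, t2⟩ := exists_rat_btwn (show max 0 ((σ 1).th v₁ - e₁ / 2) < (σ 1).th v₁ from
    max_lt (by linarith) (by linarith))
  have t3 : (0 : ℝ) < t := (le_max_left _ _).trans_lt t1
  have t4 : (σ 1).th v₁ - e₁ / 2 < t := (le_max_right _ _).trans_lt t1
  refine ⟨{Q | Q ∈ K ∧ W Q < v₁}, fun Q hQ => hQ.1, hA, v₁, t, e₁, k3, by exact_mod_cast t3, he0,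
    by rw [he₁]; linarith, t2, by linarith, k4, fun Q hQ => hQ.2, fun Q hQ => ?_⟩
  have := (hPR Q hQ.1).vel hC k3.le hQ.2 k4
  linarith

end Pool.S6C
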